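import Pool.Agent.Helper8.KS.Basic

set_option autoImplicit false

/-!
# Families of comparable pairs, the block lemma and stuck elements (sections 6, 7, 8)
-/

open MeasureTheory Pool.Agent.Helper1.Balance

namespace Pool.Agent.Helper1.KSB

open Pool.Agent.Helper8.KS

variable {n : ℕ} {r : Fin n → Fin n → Prop} {top : Fin n}

/-- Inputs of the block lemma. -/
structure Inp (M : Model r top) (N0 : ℕ) (C5 : ℝ) : Prop where
  N0_pos : 1 ≤ N0
  C5_pos : 0 < C5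
  cov : M.Cov N0
  small : ∀ x y, r x y → x ≠ y → ∀ w : ℝ, 0 ≤ w →
    M.μ.real {t | t y - t x ≤ w} ≤ C5 * w / (ht r y - ht r x)
  chain : ∀ (ρ : ℝ) (Q : Finset (Fin n)), 0 < ρ → M.IsPiece Q ρ → ∀ x0 ∈ Q, ∀ u : ℝ, 0 ≤ u →
    M.μ.real {t | ∃ x ∈ Q, u * ρ ≤ |M.cd x x0 t|} ≤
      16 * (N0 : ℝ) ^ 2 * (3 : ℝ) ^ (-u / 16)

theorem measurable_cone (r : Fin n → Fin n → Prop) : MeasurableSet (Cone r) := by
  have : Cone r = ⋂ x : Fin n, ⋂ y : Fin n, {t : Fin n → ℝ | r x y → t x ≤ t y} := by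
    ext t; simp [Cone]
  rw [this]
  refine MeasurableSet.iInter fun x => MeasurableSet.iInter fun y => ?_
  by_cases hxy : r x y
  · simp only [hxy, forall_true_left]
    exact measurableSet_le (measurable_pi_apply x) (measurable_pi_apply y)
  · simp [hxy]

theorem measurable_SS (M : Model r top) (F : Finset (Fin n × Fin n)) (lam : ℝ) :
    MeasurableSet (M.SS F lam) := by
  classical
  have : M.SS F lam = Cone r ∩ ⋂ p : Fin n × Fin n, {t : Fin n → ℝ | p ∈ F → lam ≤ t p.2 - t p.1} := by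
    ext t; simp [Model.SS]
  rw [this]
  refine (measurable_cone r).inter (MeasurableSet.iInter fun p => ?_)
  by_cases hp : p ∈ F
  · simp only [hp, forall_true_left]
    exact measurableSet_le measurable_const
      (f := fun _ : Fin n → ℝ => lam) (g := fun t : Fin n → ℝ => t p.2 - t p.1)
      ((measurable_pi_apply p.2).sub (measurable_pi_apply p.1))
  · simp [hp]

/-- Union of two families. -/
theorem SS_union (M : Model r top) {F F' : Finset (Fin n × Fin n)} {lam : ℝ}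
    (hF : ∀ p ∈ F, r p.1 p.2) (hF' : ∀ p ∈ F', r p.1 p.2)
    (h1 : 1 / 2 ≤ M.μ.real (M.SS F lam)) (h2 : 1 / 2 ≤ M.μ.real (M.SS F' lam)) :
    1 / 2 ≤ M.μ.real (M.SS (F ∪ F') (lam / 2)) := by
  classical
  have := M.mid (M.SS F lam) (M.SS F' lam) (M.SS (F ∪ F') (lam / 2)) (measurable_SS _ _ _)
    (measurable_SS _ _ _) (measurable_SS _ _ _) (by
      rintro a ⟨ha, haF⟩ b ⟨hb, hbF⟩ - -
      refine ⟨?_, ?_⟩
      · intro x y hxy
        have e1 := ha x y hxy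
        have e2 := hb x y hxy
        simp only
        linarith
      · intro p hp
        rcases Finset.mem_union.1 hp with hp | hp
        · have e1 := haF p hp
          have e2 := hb _ _ (hF p hp)
          simp only
          linarith
        · have e1 := hbF p hp
          have e2 := ha _ _ (hF' p hp)
          simp only
          linarith)
  have h0 : 0 ≤ M.μ.real (M.SS (F ∪ F') (lam / 2)) := measureReal_nonneg
  nlinarith

theorem real_cone (M : Model r top) : M.μ.real (Cone r) = 1 := by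
  rw [measureReal_def]
  have : M.μ (Cone r) = 1 := by
    rw [← prob_compl_eq_zero_iff (measurable_cone r)]
    have := M.cone
    rwa [ae_iff] at this
  rw [this]; simp

theorem SS_empty (M : Model r top) (lam : ℝ) :
    1 / 2 ≤ M.μ.real (M.SS ∅ lam) := by
  have : M.SS ∅ lam = Cone r := by ext t; simp [Model.SS]
  rw [this, real_cone]
  norm_num

theorem SS_mono (M : Model r top) {F F' : Finset (Fin n × Fin n)} {lam lam' : ℝ} (hF : F' ⊆ F)
    (hl : lam' ≤ lam) : M.μ.real (M.SS F lam) ≤ M.μ.real (M.SS F' lam') := by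
  refine measureReal_mono ?_
  rintro t ⟨h1, h2⟩
  exact ⟨h1, fun p hp => hl.trans (h2 p (hF hp))⟩

/-- Union of `2 ^ m` families. -/
theorem SS_biUnion (M : Model r top) {ι : Type*} (F : ι → Finset (Fin n × Fin n))
    (m : ℕ) : ∀ (J : Finset ι) (lam : ℝ), (∀ i ∈ J, ∀ p ∈ F i, r p.1 p.2) → J.card ≤ 2 ^ m →
      (∀ i ∈ J, 1 / 2 ≤ M.μ.real (M.SS (F i) lam)) →
      1 / 2 ≤ M.μ.real (M.SS (J.biUnion F) (lam / 2 ^ m)) := by
  classical
  induction m with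
  | zero =>
    intro J lam hF hJ h
    have hJ1 : J.card ≤ 1 := by simpa using hJ
    rcases Nat.lt_or_ge J.card 1 with h0 | h0
    · have : J = ∅ := by rw [← Finset.card_eq_zero]; omega
      subst this
      simpa using SS_empty M (lam / 1)
    · obtain ⟨i, rfl⟩ := Finset.card_eq_one.1 (le_antisymm hJ1 h0)
      simpa using h i (by simp)
  | succ m ih =>
    intro J lam hF hJ h
    obtain ⟨J1, hJ1, hc⟩ := Finset.exists_subset_card_eq (s := J) (n := min J.card (2 ^ m))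
      (min_le_left _ _)
    set J2 := J \ J1 with hJ2
    have hJ2s : J2 ⊆ J := Finset.sdiff_subset
    have hc2 : J2.card ≤ 2 ^ m := by
      rw [hJ2, Finset.card_sdiff_of_subset hJ1, hc]
      rw [pow_succ] at hJ
      omega
    have e1 := ih J1 lam (fun i hi => hF i (hJ1 hi)) (by rw [hc]; exact min_le_right _ _)
      (fun i hi => h i (hJ1 hi))
    have e2 := ih J2 lam (fun i hi => hF i (hJ2s hi)) hc2 (fun i hi => h i (hJ2s hi))
    have e3 := SS_union M (F := J1.biUnion F) (F' := J2.biUnion F) (by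
      intro p hp
      obtain ⟨i, hi1, hi⟩ := Finset.mem_biUnion.1 hp
      exact hF i (hJ1 hi1) p hi) (by
      intro p hp
      obtain ⟨i, hi1, hi⟩ := Finset.mem_biUnion.1 hp
      exact hF i (hJ2s hi1) p hi) e1 e2
    refine e3.trans (SS_mono M ?_ ?_)
    · intro p hp
      obtain ⟨i, hi, hi'⟩ := Finset.mem_biUnion.1 hp
      by_cases hi1 : i ∈ J1
      · exact Finset.mem_union_left _ (Finset.mem_biUnion.2 ⟨i, hi1, hi'⟩)
      · exact Finset.mem_union_right _ (Finset.mem_biUnion.2 ⟨i, by rw [hJ2]; simp [hi, hi1], hi'⟩)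
    · rw [pow_succ, div_div]

/-- Iterated halving of pieces. -/
theorem cov_iter {M : Model r top} {N0 : ℕ} (hc : M.Cov N0) (j : ℕ) :
    ∀ (ρ : ℝ) (Q : Finset (Fin n)), 0 < ρ → M.IsPiece Q ρ →
      ∃ Qs : Finset (Finset (Fin n)), Qs.card ≤ N0 ^ j ∧
        (∀ Q' ∈ Qs, Q' ⊆ Q ∧ M.IsPiece Q' (ρ / 2 ^ j)) ∧ ∀ x ∈ Q, ∃ Q' ∈ Qs, x ∈ Q' := by
  classical
  induction j with
  | zero =>
    intro ρ Q hρ hQ
    exact ⟨{Q}, by simp, by simpa using hQ, fun x hx => ⟨Q, by simp, hx⟩⟩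
  | succ j ih =>
    intro ρ Q hρ hQ
    obtain ⟨Qs, h1, h2, h3⟩ := ih ρ Q hρ hQ
    have h4 : ∀ Q' : Finset (Fin n), ∃ Rs : Finset (Finset (Fin n)), Q' ∈ Qs →
        Rs.card ≤ N0 ∧ (∀ Q'' ∈ Rs, Q'' ⊆ Q' ∧ M.IsPiece Q'' (ρ / 2 ^ j / 2)) ∧
        ∀ x ∈ Q', ∃ Q'' ∈ Rs, x ∈ Q'' := by
      intro Q'
      by_cases hQ' : Q' ∈ Qs
      · obtain ⟨Rs, hR⟩ := hc (ρ / 2 ^ j) Q' (by positivity) (h2 Q' hQ').2
        exact ⟨Rs, fun _ => hR⟩
      · exact ⟨∅, fun h => absurd h hQ'⟩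
    choose R hR using h4
    refine ⟨Qs.biUnion R, ?_, ?_, ?_⟩
    · refine (Finset.card_biUnion_le_card_mul _ _ N0 (fun Q' hQ' => (hR Q' hQ').1)).trans ?_
      rw [pow_succ]
      exact Nat.mul_le_mul_right _ h1
    · intro Q'' hQ''
      obtain ⟨Q', hQ', hm⟩ := Finset.mem_biUnion.1 hQ''
      obtain ⟨e1, e2⟩ := (hR Q' hQ').2.1 Q'' hm
      refine ⟨e1.trans (h2 Q' hQ').1, ?_⟩
      rwa [div_div, ← pow_succ] at e2
    · intro x hx
      obtain ⟨Q', hQ', hxQ'⟩ := h3 x hx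
      obtain ⟨Q'', hQ'', hxQ''⟩ := (hR Q' hQ').2.2 x hxQ'
      exact ⟨Q'', Finset.mem_biUnion.2 ⟨Q', hQ', hQ''⟩, hxQ''⟩

/-- The absolute constant of (6.1). -/
noncomputable def a0 (C5 : ℝ) : ℝ := 1 / (8 * C5)

/-- The deviation parameter of (6.1). -/
noncomputable def u0 (N0 : ℕ) : ℝ := 2048 * (N0 : ℝ) ^ 2

/-- The scale ratio of (6.1). -/
noncomputable def eta0 (N0 : ℕ) (C5 : ℝ) : ℝ := a0 C5 / (2 * u0 N0)

theorem a0_pos {C5 : ℝ} (h : 0 < C5) : 0 < a0 C5 := by unfold a0; positivity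

theorem u0_pos {N0 : ℕ} (h : 1 ≤ N0) : 0 < u0 N0 := by
  have : (0 : ℝ) < N0 := by exact_mod_cast h
  unfold u0; positivity

theorem eta0_pos {N0 : ℕ} {C5 : ℝ} (h : 1 ≤ N0) (h5 : 0 < C5) : 0 < eta0 N0 C5 := by
  have := u0_pos h
  have := a0_pos h5
  unfold eta0; positivity

theorem exp_small {N0 : ℕ} (h : 1 ≤ N0) :
    16 * (N0 : ℝ) ^ 2 * (3 : ℝ) ^ (-(u0 N0) / 16) ≤ 1 / 8 := by
  have hN : (1 : ℝ) ≤ N0 := by exact_mod_cast h
  have e1 : -(u0 N0) / 16 = -((128 * N0 ^ 2 : ℕ) : ℝ) := by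
    unfold u0; push_cast; ring
  have e2 : ((128 * N0 ^ 2 : ℕ) : ℝ) ≤ (3 : ℝ) ^ (128 * N0 ^ 2 : ℕ) := by
    have := Nat.lt_pow_self (n := 128 * N0 ^ 2) (a := 3) (by norm_num)
    exact_mod_cast this.le
  rw [e1, Real.rpow_neg (by norm_num), Real.rpow_natCast]
  rw [← div_eq_mul_inv, div_le_iff₀ (by positivity)]
  push_cast at e2
  nlinarith

theorem SS_pieces {M : Model r top} {N0 : ℕ} {C5 : ℝ} (I : Inp M N0 C5)
    {Q1 Q2 : Finset (Fin n)} {ρ g : ℝ} (hr : 0 < ρ) (hg : 0 < g)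
    (h1 : M.IsPiece Q1 ρ) (h2 : M.IsPiece Q2 ρ) (F : Finset (Fin n × Fin n))
    (hF : ∀ p ∈ F, p.1 ∈ Q1 ∧ p.2 ∈ Q2 ∧ r p.1 p.2 ∧ p.1 ≠ p.2 ∧ g ≤ ht r p.2 - ht r p.1)
    (hrg : ρ ≤ eta0 N0 C5 * g) : 1 / 2 ≤ M.μ.real (M.SS F (a0 C5 * g)) := by
  classical
  rcases F.eq_empty_or_nonempty with rfl | hne
  · exact SS_empty M _
  obtain ⟨p0, hp0, hmin⟩ := Finset.exists_min_image F (fun p => ht r p.2 - ht r p.1) hne
  obtain ⟨hx0, hz0, hxz, hxne, hg0⟩ := hF p0 hp0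
  have ha := a0_pos I.C5_pos
  have hu := u0_pos I.N0_pos
  have hC := I.C5_pos
  have hg1 : 0 < ht r p0.2 - ht r p0.1 := lt_of_lt_of_le hg hg0
  set E1 : Set (Fin n → ℝ) := {t | t p0.2 - t p0.1 ≤ 2 * a0 C5 * (ht r p0.2 - ht r p0.1)} with hE1
  set E2 : Set (Fin n → ℝ) := {t | ∃ x ∈ Q1, u0 N0 * ρ ≤ |M.cd x p0.1 t|} with hE2
  set E3 : Set (Fin n → ℝ) := {t | ∃ x ∈ Q2, u0 N0 * ρ ≤ |M.cd x p0.2 t|} with hE3
  set E4 : Set (Fin n → ℝ) := (Cone r)ᶜ with hE4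
  have b1 : M.μ.real E1 ≤ 1 / 4 := by
    refine (I.small _ _ hxz hxne _ (by positivity)).trans ?_
    unfold a0
    rw [div_le_iff₀ hg1]
    have : C5 * (2 * (1 / (8 * C5)) * (ht r p0.2 - ht r p0.1)) =
        1 / 4 * (ht r p0.2 - ht r p0.1) := by field_simp; norm_num
    rw [this]
  have b2 : M.μ.real E2 ≤ 1 / 8 := (I.chain ρ Q1 hr h1 _ hx0 _ hu.le).trans (exp_small I.N0_pos)
  have b3 : M.μ.real E3 ≤ 1 / 8 := (I.chain ρ Q2 hr h2 _ hz0 _ hu.le).trans (exp_small I.N0_pos)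
  have b4 : M.μ.real E4 = 0 := by
    rw [measureReal_def, hE4]
    have := M.cone
    rw [ae_iff] at this
    have e : {a | a ∉ Cone r} = (Cone r)ᶜ := rfl
    rw [e] at this
    rw [this]; simp
  have hcov : (Set.univ : Set (Fin n → ℝ)) ⊆ M.SS F (a0 C5 * g) ∪ (E1 ∪ (E2 ∪ (E3 ∪ E4))) := by
    intro t _
    by_contra hcon
    simp only [Set.mem_union, not_or] at hcon
    obtain ⟨n0, n1, n2, n3, n4⟩ := hcon
    apply n0
    rw [hE4, Set.notMem_compl_iff] at n4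
    refine ⟨n4, fun p hp => ?_⟩
    obtain ⟨hpx, hpz, hplt, hpne, hpg⟩ := hF p hp
    have m0 := hmin p hp
    simp only [hE1, Set.mem_ofPred_eq, not_le] at n1
    simp only [hE2, Set.mem_ofPred_eq, not_exists, not_and, not_le] at n2
    simp only [hE3, Set.mem_ofPred_eq, not_exists, not_and, not_le] at n3
    have k2 := n2 _ hpx
    have k3 := n3 _ hpz
    unfold Model.cd at k2 k3
    rw [abs_lt] at k2 k3
    have k4 : 2 * (u0 N0 * ρ) ≤ a0 C5 * g := by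
      have : u0 N0 * ρ ≤ u0 N0 * (eta0 N0 C5 * g) := mul_le_mul_of_nonneg_left hrg hu.le
      have e : u0 N0 * (eta0 N0 C5 * g) = a0 C5 * g / 2 := by
        unfold eta0; field_simp
      linarith
    have k5 : 2 * a0 C5 * g ≤ 2 * a0 C5 * (ht r p0.2 - ht r p0.1) :=
      mul_le_mul_of_nonneg_left hg0 (by positivity)
    have hh : ht r p0.2 - ht r p0.1 ≤ ht r p.2 - ht r p.1 := m0
    linarith [k2.1, k2.2, k3.1, k3.2]
  have hm : (1 : ℝ) ≤ M.μ.real (M.SS F (a0 C5 * g)) +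
      (M.μ.real E1 + (M.μ.real E2 + (M.μ.real E3 + M.μ.real E4))) := by
    calc (1 : ℝ) = M.μ.real Set.univ := by simp
      _ ≤ M.μ.real (M.SS F (a0 C5 * g) ∪ (E1 ∪ (E2 ∪ (E3 ∪ E4)))) := measureReal_mono hcov
      _ ≤ M.μ.real (M.SS F (a0 C5 * g)) + M.μ.real (E1 ∪ (E2 ∪ (E3 ∪ E4))) :=
          measureReal_union_le _ _
      _ ≤ M.μ.real (M.SS F (a0 C5 * g)) + (M.μ.real E1 + M.μ.real (E2 ∪ (E3 ∪ E4))) := by
          gcongr; exact measureReal_union_le _ _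
      _ ≤ M.μ.real (M.SS F (a0 C5 * g)) +
          (M.μ.real E1 + (M.μ.real E2 + M.μ.real (E3 ∪ E4))) := by
          gcongr; exact measureReal_union_le _ _
      _ ≤ _ := by
          gcongr; exact measureReal_union_le _ _
  linarith

/-- The scale ratio used in the block lemma. -/
noncomputable def etaM (N0 : ℕ) (C5 : ℝ) : ℝ := min (eta0 N0 C5) 1

/-- Number of halvings for the block. -/
noncomputable def j1 (N0 : ℕ) (C5 q : ℝ) : ℕ := ⌈7 * q / etaM N0 C5⌉₊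

/-- Number of halvings for the elements above the block. -/
noncomputable def j2 (N0 : ℕ) (C5 : ℝ) : ℕ := ⌈16 / etaM N0 C5⌉₊

/-- The exponent `m` of the block lemma. -/
noncomputable def mC (N0 : ℕ) (C5 q : ℝ) : ℕ := N0 ^ (j1 N0 C5 q) + N0 ^ (j2 N0 C5)

/-- The constant of the block lemma: the gap `lam = cB * delta`. -/
noncomputable def cB (N0 : ℕ) (C5 q : ℝ) : ℝ := a0 C5 / 2 ^ (mC N0 C5 q + 1)

theorem etaM_pos {N0 : ℕ} {C5 : ℝ} (h : 1 ≤ N0) (h5 : 0 < C5) : 0 < etaM N0 C5 :=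
  lt_min (eta0_pos h h5) one_pos

theorem cB_pos {N0 : ℕ} {C5 : ℝ} (q : ℝ) (h5 : 0 < C5) : 0 < cB N0 C5 q := by
  have := a0_pos h5
  unfold cB; positivity

theorem div_two_pow_ceil_le {a b : ℝ} (hb : 0 < b) : a / 2 ^ (⌈a / b⌉₊) ≤ b := by
  have e1 : a / b ≤ (⌈a / b⌉₊ : ℝ) := Nat.le_ceil _
  have e2 : (⌈a / b⌉₊ : ℝ) ≤ 2 ^ ⌈a / b⌉₊ := by
    exact_mod_cast (Nat.lt_pow_self (n := ⌈a / b⌉₊) (a := 2) (by norm_num)).le
  have e3 : a ≤ b * 2 ^ ⌈a / b⌉₊ := by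
    have := e1.trans e2
    rw [div_le_iff₀ hb] at this
    linarith
  rw [div_le_iff₀ (by positivity)]
  exact e3

theorem IsPiece.mono {M : Model r top} {ρ ρ' : ℝ} {Q : Finset (Fin n)} (hQ : M.IsPiece Q ρ)
    (hr : ρ ≤ ρ') : M.IsPiece Q ρ' :=
  fun x hx y hy => ⟨(hQ x hx y hy).1.trans hr, (hQ x hx y hy).2.trans (by linarith)⟩

open Classical in
/-- The comparable pairs leaving the block `B` upwards with mean gap in a dyadic shell. -/
noncomputable def PPk (r : Fin n → Fin n → Prop) (B : Finset (Fin n)) (g : ℝ) :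
    Finset (Fin n × Fin n) :=
  Finset.univ.filter (fun p => p.1 ∈ B ∧ p.2 ∉ B ∧ r p.1 p.2 ∧
    g ≤ ht r p.2 - ht r p.1 ∧ ht r p.2 - ht r p.1 < 2 * g)

open Classical in
/-- The comparable pairs leaving the block with mean gap at least `g`. -/
noncomputable def PPge (r : Fin n → Fin n → Prop) (B : Finset (Fin n)) (g : ℝ) :
    Finset (Fin n × Fin n) :=
  Finset.univ.filter (fun p => p.1 ∈ B ∧ p.2 ∉ B ∧ r p.1 p.2 ∧ g ≤ ht r p.2 - ht r p.1)

theorem mem_PPk {B : Finset (Fin n)} {g : ℝ} {p : Fin n × Fin n} : p ∈ PPk r B g ↔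
    p.1 ∈ B ∧ p.2 ∉ B ∧ r p.1 p.2 ∧ g ≤ ht r p.2 - ht r p.1 ∧ ht r p.2 - ht r p.1 < 2 * g := by
  simp [PPk]

theorem mem_PPge {B : Finset (Fin n)} {g : ℝ} {p : Fin n × Fin n} : p ∈ PPge r B g ↔
    p.1 ∈ B ∧ p.2 ∉ B ∧ r p.1 p.2 ∧ g ≤ ht r p.2 - ht r p.1 := by
  simp [PPge]

theorem block_level {M : Model r top} {N0 : ℕ} {C5 : ℝ} (I : Inp M N0 C5) {δ ℓ : ℝ} (hδ : 0 < δ)
    (hℓ : 0 < ℓ) (B : Finset (Fin n)) (hB : M.IsPiece B (7 * ℓ)) {g : ℝ} (hg : δ ≤ g) :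
    1 / 2 ≤ M.μ.real (M.SS (PPk r B g) (a0 C5 * g / 2 ^ (mC N0 C5 (ℓ / δ)))) := by
  classical
  set η := etaM N0 C5 with hη
  have hηp : 0 < η := etaM_pos I.N0_pos I.C5_pos
  have hη1 : η ≤ 1 := min_le_right _ _
  have hη0 : η ≤ eta0 N0 C5 := min_le_left _ _
  have hgp : 0 < g := lt_of_lt_of_le hδ hg
  have hrp : 0 < η * g := by positivity
  obtain ⟨Qs, hQc, hQp, hQcov⟩ := cov_iter I.cov (j1 N0 C5 (ℓ / δ)) (7 * ℓ) B (by positivity) hB
  have hQ' : ∀ Q ∈ Qs, M.IsPiece Q (η * g) := by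
    intro Q hQ
    refine IsPiece.mono (hQp Q hQ).2 ?_
    have e : 7 * ℓ / 2 ^ (j1 N0 C5 (ℓ / δ)) ≤ η * δ := by
      have := div_two_pow_ceil_le (a := 7 * ℓ) (b := η * δ) (by positivity)
      have e2 : 7 * ℓ / (η * δ) = 7 * (ℓ / δ) / η := by field_simp
      rw [e2] at this
      exact this
    exact e.trans (mul_le_mul_of_nonneg_left hg hηp.le)
  -- the elements above a piece
  set Z : Finset (Fin n) → Finset (Fin n) := fun Q =>
    Finset.univ.filter (fun z' => ∃ w ∈ Q, (w, z') ∈ PPk r B g) with hZdef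
  have hZ : ∀ Q ∈ Qs, M.IsPiece (Z Q) (16 * g) := by
    intro Q hQ z1 hz1 z2 hz2
    simp only [hZdef, Finset.mem_filter, Finset.mem_univ, true_and] at hz1 hz2
    obtain ⟨r1, hr1, hp1⟩ := hz1
    obtain ⟨r2, hr2, hp2⟩ := hz2
    obtain ⟨hB1, hnB1, hlt1, ha1, hb1⟩ := mem_PPk.1 hp1
    obtain ⟨hB2, hnB2, hlt2, ha2, hb2⟩ := mem_PPk.1 hp2
    have e0 := hQ' Q hQ r1 hr1 r2 hr2
    have hηg : η * g ≤ g := by nlinarith
    have e1 : |ht r r1 - ht r r2| ≤ g := e0.1.trans hηg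
    have e2 : M.s r1 r2 ≤ 2 * g := e0.2.trans (by linarith)
    simp only at ha1 hb1 ha2 hb2 hlt1 hlt2
    rw [abs_le] at e1
    constructor
    · rw [abs_le]; constructor <;> linarith [e1.1, e1.2]
    · have k1 := M.s_le_of_rel hlt1
      have k2 := M.s_le_of_rel hlt2
      have k3 := M.s_triangle z1 r1 z2
      have k4 := M.s_triangle r1 r2 z2
      have k5 := M.s_comm z1 r1
      linarith
  have hZc : ∀ Q : Finset (Fin n), ∃ Rs : Finset (Finset (Fin n)), Q ∈ Qs →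
      Rs.card ≤ N0 ^ (j2 N0 C5) ∧ (∀ R ∈ Rs, M.IsPiece R (η * g)) ∧
      ∀ x ∈ Z Q, ∃ R ∈ Rs, x ∈ R := by
    intro Q
    by_cases hQ : Q ∈ Qs
    · obtain ⟨Rs, h1, h2, h3⟩ := cov_iter I.cov (j2 N0 C5) (16 * g) (Z Q) (by positivity) (hZ Q hQ)
      refine ⟨Rs, fun _ => ⟨h1, fun R hR => IsPiece.mono (h2 R hR).2 ?_, h3⟩⟩
      have := div_two_pow_ceil_le (a := 16) (b := η) hηp
      have e : 16 * g / 2 ^ (j2 N0 C5) = 16 / 2 ^ (j2 N0 C5) * g := by ring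
      rw [e]
      exact mul_le_mul_of_nonneg_right this hgp.le
    · exact ⟨∅, fun h => absurd h hQ⟩
  choose Rs hRs using hZc
  set Fam : Finset (Fin n) → Finset (Fin n) → Finset (Fin n × Fin n) :=
    fun Q R => (PPk r B g).filter (fun p => p.1 ∈ Q ∧ p.2 ∈ R) with hFam
  have hfam : ∀ Q ∈ Qs, ∀ R ∈ Rs Q, 1 / 2 ≤ M.μ.real (M.SS (Fam Q R) (a0 C5 * g)) := by
    intro Q hQ R hR
    refine SS_pieces I (ρ := η * g) hrp hgp (hQ' Q hQ) ((hRs Q hQ).2.1 R hR) (Fam Q R) ?_ ?_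
    · intro p hp
      simp only [hFam, Finset.mem_filter] at hp
      obtain ⟨hp, hp1, hp2⟩ := hp
      obtain ⟨q1, q2, q3, q4, q5⟩ := mem_PPk.1 hp
      exact ⟨hp1, hp2, q3, fun hc => q2 (hc ▸ q1), q4⟩
    · exact mul_le_mul_of_nonneg_right hη0 hgp.le
  have hrel : ∀ Q R, ∀ p ∈ Fam Q R, r p.1 p.2 := by
    intro Q R p hp
    simp only [hFam, Finset.mem_filter] at hp
    exact (mem_PPk.1 hp.1).2.2.1
  have hU1 : ∀ Q ∈ Qs, 1 / 2 ≤ M.μ.real (M.SS ((Rs Q).biUnion (Fam Q))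
      (a0 C5 * g / 2 ^ (N0 ^ (j2 N0 C5)))) := by
    intro Q hQ
    exact SS_biUnion M (Fam Q) _ (Rs Q) (a0 C5 * g) (fun R _ => hrel Q R)
      ((hRs Q hQ).1.trans (Nat.lt_pow_self (n := N0 ^ (j2 N0 C5)) (a := 2) (by norm_num)).le)
      (hfam Q hQ)
  have hU2 := SS_biUnion M (fun Q => (Rs Q).biUnion (Fam Q)) (N0 ^ (j1 N0 C5 (ℓ / δ))) Qs
    (a0 C5 * g / 2 ^ (N0 ^ (j2 N0 C5))) (by
      intro Q hQ p hp
      obtain ⟨R, _, hR⟩ := Finset.mem_biUnion.1 hp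
      exact hrel Q R p hR)
    (hQc.trans (Nat.lt_pow_self (n := N0 ^ (j1 N0 C5 (ℓ / δ))) (a := 2) (by norm_num)).le) hU1
  have elam : a0 C5 * g / 2 ^ (N0 ^ (j2 N0 C5)) / 2 ^ (N0 ^ (j1 N0 C5 (ℓ / δ))) =
      a0 C5 * g / 2 ^ (mC N0 C5 (ℓ / δ)) := by
    unfold mC
    rw [div_div, ← pow_add, add_comm]
  rw [elam] at hU2
  refine hU2.trans (SS_mono M ?_ le_rfl)
  intro p hp
  obtain ⟨q1, q2, q3, q4, q5⟩ := mem_PPk.1 hp
  obtain ⟨Q, hQ, hpQ⟩ := hQcov p.1 q1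
  have hpZ : p.2 ∈ Z Q := by
    simp only [hZdef, Finset.mem_filter, Finset.mem_univ, true_and]
    exact ⟨p.1, hpQ, hp⟩
  obtain ⟨R, hR, hpR⟩ := (hRs Q hQ).2.2 p.2 hpZ
  refine Finset.mem_biUnion.2 ⟨Q, hQ, Finset.mem_biUnion.2 ⟨R, hR, ?_⟩⟩
  simp only [hFam, Finset.mem_filter]
  exact ⟨hp, hpQ, hpR⟩

theorem block_all {M : Model r top} {N0 : ℕ} {C5 : ℝ} (I : Inp M N0 C5) {δ ℓ : ℝ} (hδ : 0 < δ)
    (hℓ : 0 < ℓ) (B : Finset (Fin n)) (hB : M.IsPiece B (7 * ℓ)) :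
    1 / 2 ≤ M.μ.real (M.SS (PPge r B δ) (cB N0 C5 (ℓ / δ) * δ)) := by
  classical
  -- for large k the family is empty
  obtain ⟨H, hH⟩ : ∃ H : ℝ, ∀ p : Fin n × Fin n, ht r p.2 - ht r p.1 ≤ H := by
    obtain ⟨H, hH⟩ := (Set.finite_range (fun p : Fin n × Fin n => ht r p.2 - ht r p.1)).bddAbove
    exact ⟨H, fun p => hH ⟨p, rfl⟩⟩
  obtain ⟨K, hK⟩ : ∃ K : ℕ, H < 2 ^ K * δ := by
    obtain ⟨K, hK⟩ := pow_unbounded_of_one_lt (H / δ) (one_lt_two)
    refine ⟨K, ?_⟩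
    rwa [div_lt_iff₀ hδ] at hK
  have key : ∀ l k : ℕ, K ≤ k + l →
      1 / 2 ≤ M.μ.real (M.SS (PPge r B (2 ^ k * δ)) (cB N0 C5 (ℓ / δ) * (2 ^ k * δ))) := by
    intro l
    induction l with
    | zero =>
      intro k hk
      have : PPge r B (2 ^ k * δ) = ∅ := by
        rw [Finset.eq_empty_iff_forall_notMem]
        intro p hp
        obtain ⟨-, -, -, hp⟩ := mem_PPge.1 hp
        have e1 := hH p
        have e2 : (2 : ℝ) ^ K ≤ 2 ^ k := pow_le_pow_right₀ (by norm_num) (by omega)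
        have e3 : (2 : ℝ) ^ K * δ ≤ 2 ^ k * δ := mul_le_mul_of_nonneg_right e2 hδ.le
        linarith
      rw [this]
      exact SS_empty M _
    | succ l ih =>
      intro k hk
      have e1 := ih (k + 1) (by omega)
      have hkδ : δ ≤ 2 ^ k * δ := by
        have : (1 : ℝ) ≤ 2 ^ k := one_le_pow₀ (by norm_num)
        nlinarith
      have e2 := block_level I hδ hℓ B hB hkδ
      have e3 : a0 C5 * (2 ^ k * δ) / 2 ^ (mC N0 C5 (ℓ / δ)) =
          2 * (cB N0 C5 (ℓ / δ) * (2 ^ k * δ)) := by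
        unfold cB; rw [pow_succ]; field_simp
      have e4 : cB N0 C5 (ℓ / δ) * (2 ^ (k + 1) * δ) = 2 * (cB N0 C5 (ℓ / δ) * (2 ^ k * δ)) := by
        rw [pow_succ]; ring
      rw [e3] at e2
      rw [e4] at e1
      have e5 := SS_union M (fun p hp => (mem_PPk.1 hp).2.2.1) (fun p hp => (mem_PPge.1 hp).2.2.1)
        e2 e1
      refine e5.trans (SS_mono M ?_ (by linarith))
      intro p hp
      obtain ⟨h1, h2, h3, h4⟩ := mem_PPge.1 hp
      rcases lt_or_ge (ht r p.2 - ht r p.1) (2 * (2 ^ k * δ)) with h5 | h5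
      · exact Finset.mem_union_left _ (mem_PPk.2 ⟨h1, h2, h3, h4, h5⟩)
      · refine Finset.mem_union_right _ (mem_PPge.2 ⟨h1, h2, h3, ?_⟩)
        rw [pow_succ]; linarith
  have := key K 0 (by omega)
  simpa using this

/-- The block lemma (7.1). -/
theorem block {M : Model r top} {N0 : ℕ} {C5 : ℝ} (I : Inp M N0 C5) {δ ℓ : ℝ} (hδ : 0 < δ)
    (hℓ : 0 < ℓ) (B : Finset (Fin n)) (hTB : top ∉ B) (z : Fin n) (hzB : ∀ w ∈ B, r z w)
    (hlen : ∀ w ∈ B, ht r w < ht r z + ℓ)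
    (hgap : ∀ w ∈ B, ∀ z', z' ∉ B → r w z' → δ ≤ ht r z' - ht r w) :
    ∀ w ∈ B, ∀ x, x ∉ B → cB N0 C5 (ℓ / δ) * δ / 3 ≤ M.s w x := by
  classical
  intro w hw x hx
  have hzr : ∀ w ∈ B, M.s z w ≤ 7 * ℓ ∧ ht r z ≤ ht r w := by
    intro w hw
    rcases eq_or_ne z w with h0 | h0
    · rw [← h0, M.s_self]; exact ⟨by linarith, le_rfl⟩
    · have k1 := M.s_le_of_rel (hzB w hw)
      have k2 := M.ht_mono (hzB w hw) h0
      have k3 := hlen w hw
      exact ⟨by linarith, k2.le⟩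
  have hB : M.IsPiece B (7 * ℓ) := by
    intro r1 h1 r2 h2
    obtain ⟨a1, b1⟩ := hzr r1 h1
    obtain ⟨a2, b2⟩ := hzr r2 h2
    have c1 := hlen r1 h1
    have c2 := hlen r2 h2
    refine ⟨?_, ?_⟩
    · rw [abs_le]; constructor <;> linarith
    · have k1 := M.s_triangle r1 z r2
      rw [M.s_comm r1 z] at k1
      linarith
  set lam := cB N0 C5 (ℓ / δ) * δ with hlam
  have hlamp : 0 < lam := mul_pos (cB_pos _ I.C5_pos) hδ
  have hA := block_all I hδ hℓ B hB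
  set A := M.SS (PPge r B δ) lam with hAdef
  have hAm : MeasurableSet A := measurable_SS _ _ _
  have hbump : ∀ t ∈ A, shiftBy B lam t ∈ Cone r := by
    rintro t ⟨ht', htF⟩ x y hxy
    have e := ht' x y hxy
    unfold shiftBy
    by_cases hxB : x ∈ B <;> by_cases hyB : y ∈ B
    · simp only [hxB, hyB, if_true]; linarith
    · simp only [hxB, hyB, if_true, if_false]
      have := htF (x, y) (mem_PPge.2 ⟨hxB, hyB, hxy, hgap x hxB y hyB hxy⟩)
      simp only at this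
      linarith
    · simp only [hxB, hyB, if_true, if_false]; linarith
    · simp only [hxB, hyB, if_false]; linarith
  have hmeas : Measurable (fun t : Fin n → ℝ => ENNReal.ofReal (M.cd w x t ^ 2)) := by
    refine ENNReal.measurable_ofReal.comp ?_
    exact (((measurable_pi_apply w).sub (measurable_pi_apply x)).sub measurable_const).pow_const 2
  have hvar : ∫⁻ t, ENNReal.ofReal (M.cd w x t ^ 2) ∂M.μ = ENNReal.ofReal (M.s w x ^ 2) := by
    rw [M.s_sq, ofReal_integral_eq_lintegral_ofReal]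
    · exact (M.memLp_cd w x 2).integrable_sq
    · exact Filter.Eventually.of_forall fun t => sq_nonneg _
  have hs := M.shift B lam A hTB hlamp.le hAm hbump
    (fun t => ENNReal.ofReal (M.cd w x t ^ 2)) hmeas
  rw [hvar] at hs
  have hs2 : ∫⁻ t in A, ENNReal.ofReal (M.cd w x t ^ 2) ∂M.μ ≤
      ENNReal.ofReal (M.s w x ^ 2) := by
    rw [← hvar]
    exact setLIntegral_le_lintegral _ _
  have hsum : ∫⁻ t in A, ENNReal.ofReal (lam ^ 2 / 2) ∂M.μ ≤
      ENNReal.ofReal (M.s w x ^ 2) + ENNReal.ofReal (M.s w x ^ 2) := by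
    refine le_trans ?_ (add_le_add hs2 hs)
    rw [← lintegral_add_left hmeas]
    refine lintegral_mono fun t => ?_
    rw [← ENNReal.ofReal_add (sq_nonneg _) (sq_nonneg _)]
    refine ENNReal.ofReal_le_ofReal ?_
    unfold Model.cd shiftBy
    simp only [hw, hx, if_true, if_false, add_zero]
    nlinarith [sq_nonneg (2 * (t w - t x - (ht r w - ht r x)) + lam)]
  rw [setLIntegral_const, ← ENNReal.ofReal_add (sq_nonneg _) (sq_nonneg _)] at hsum
  have hμA : ENNReal.ofReal (1 / 2) ≤ M.μ A := by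
    rw [← ofReal_measureReal (μ := M.μ) (s := A)]
    exact ENNReal.ofReal_le_ofReal hA
  have h3 : ENNReal.ofReal (lam ^ 2 / 2 * (1 / 2)) ≤
      ENNReal.ofReal (M.s w x ^ 2 + M.s w x ^ 2) := by
    rw [ENNReal.ofReal_mul (by positivity)]
    exact (mul_le_mul_right hμA _).trans hsum
  rw [ENNReal.ofReal_le_ofReal_iff (by positivity)] at h3
  have h4 := M.s_nonneg w x
  have h5 : (lam / 3) ^ 2 ≤ M.s w x ^ 2 := by nlinarith
  exact (abs_le_of_sq_le_sq' h5 h4).2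

open Classical in
/-- Everything reachable from `z` by upward steps of mean gap less than `δ`. -/
noncomputable def Bset (r : Fin n → Fin n → Prop) (δ : ℝ) (z : Fin n) : Finset (Fin n) :=
  Finset.univ.filter (fun w => Relation.ReflTransGen (Step r δ) z w)

theorem mem_Bset {δ : ℝ} {z w : Fin n} :
    w ∈ Bset r δ z ↔ Relation.ReflTransGen (Step r δ) z w := by simp [Bset]

theorem rel_of_mem_Bset (hp : IsPoset r) {δ : ℝ} {z w : Fin n}
    (hr : Relation.ReflTransGen (Step r δ) z w) : r z w := by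
  induction hr with
  | refl => exact hp.1 z
  | tail _ hbc ih => exact hp.2.1 _ _ _ ih hbc.1

/-- Stuck elements are isolated (8.1). -/
theorem isolated {M : Model r top} {N0 : ℕ} {C5 : ℝ} (I : Inp M N0 C5) {δ ℓ : ℝ} (hδ : 0 < δ)
    (hℓ : 0 < ℓ) {z : Fin n} (hz : Stuck r δ ℓ z) (hT : ht r z + ℓ ≤ ht r top) :
    ∀ x, x ≠ z → cB N0 C5 (ℓ / δ) * δ / 3 ≤ M.s z x := by
  intro x hxz
  have hp := M.poset
  have hTz : top ∉ Bset r δ z := fun hc => absurd (hz top (mem_Bset.1 hc)) (not_lt.2 hT)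
  by_cases hx : x ∈ Bset r δ z
  · -- x is above z; use the block of x
    have hx' := mem_Bset.1 hx
    have hzx : r z x := rel_of_mem_Bset hp hx'
    have hsub : Bset r δ x ⊆ Bset r δ z := fun w hw =>
      mem_Bset.2 (Relation.ReflTransGen.trans hx' (mem_Bset.1 hw))
    have hh := M.ht_mono hzx hxz.symm
    have := block I hδ hℓ (Bset r δ x) (fun hc => hTz (hsub hc)) x
      (fun w hw => rel_of_mem_Bset hp (mem_Bset.1 hw))
      (fun w hw => by have := hz w (mem_Bset.1 (hsub hw)); linarith)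
      (fun w hw z' hz' hlt => by
        by_contra hcon
        exact hz' (mem_Bset.2 (Relation.ReflTransGen.tail (mem_Bset.1 hw) ⟨hlt, not_le.1 hcon⟩)))
      x (mem_Bset.2 Relation.ReflTransGen.refl) z
      (fun hc => hxz (hp.2.2 _ _ (rel_of_mem_Bset hp (mem_Bset.1 hc)) hzx))
    rwa [M.s_comm] at this
  · exact block I hδ hℓ (Bset r δ z) hTz z
      (fun w hw => rel_of_mem_Bset hp (mem_Bset.1 hw)) (fun w hw => hz w (mem_Bset.1 hw))
      (fun w hw z' hz' hlt => by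
        by_contra hcon
        exact hz' (mem_Bset.2 (Relation.ReflTransGen.tail (mem_Bset.1 hw) ⟨hlt, not_le.1 hcon⟩)))
      z (mem_Bset.2 Relation.ReflTransGen.refl) x hx

/-- An element which is not stuck starts a long chain with small mean gaps (8.2). -/
theorem chain_of_not_stuck {δ ℓ : ℝ} {z : Fin n} (hz : ¬ Stuck r δ ℓ z) :
    ∃ (m : ℕ) (c : ℕ → Fin n), c 0 = z ∧ (∀ i, i < m → Step r δ (c i) (c (i + 1))) ∧
      ht r z + ℓ ≤ ht r (c m) := by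
  unfold Stuck at hz
  push Not at hz
  obtain ⟨w, hw, hwl⟩ := hz
  have key : ∀ w, Relation.ReflTransGen (Step r δ) z w →
      ∃ (m : ℕ) (c : ℕ → Fin n), c 0 = z ∧
        (∀ i, i < m → Step r δ (c i) (c (i + 1))) ∧ c m = w := by
    intro w hw
    induction hw with
    | refl => exact ⟨0, fun _ => z, rfl, fun i hi => absurd hi (Nat.not_lt_zero i), rfl⟩
    | @tail b d _ hbd ih =>
      obtain ⟨m, c, h0, h1, h2⟩ := ih
      refine ⟨m + 1, fun i => if i ≤ m then c i else d, by simp [h0], ?_, by simp⟩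
      intro i hi
      rcases Nat.lt_or_ge i m with him | him
      · have e1 : i ≤ m := him.le
        have e2 : i + 1 ≤ m := him
        simp only [e1, e2, if_true]
        exact h1 i him
      · have e1 : i = m := by omega
        subst e1
        simp only [le_refl, if_true, show ¬ (i + 1 ≤ i) by omega, if_false, h2]
        exact hbd
  obtain ⟨m, c, h0, h1, h2⟩ := key w hw
  exact ⟨m, c, h0, h1, by rw [h2]; exact hwl⟩

end Pool.Agent.Helper1.KSB
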